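import Pool.Agent.LE.StmtsZ

/-!
MP_1906c1_mp, table lsh, row LCP: the value at the centre and the mean.
-/

set_option autoImplicit false

noncomputable section

namespace Pool.Agent.LE.H65Z

open Pool.Agent.Anderson Pool.Agent.Loc Pool.Agent.LE

theorem cardb {d : ℕ} (p : Site d) (s : ℕ) :
    ((Pool.Agent.Loc.box p s).card : ℝ) = (2 * (s : ℝ) + 1) ^ d := by
  unfold Pool.Agent.Loc.box
  rw [Pi.card_Icc]
  simp only [Int.card_Icc]
  rw [Finset.prod_congr rfl (fun i _ => show (p i + (s : ℤ) + 1 - (p i - (s : ℤ))).toNat = 2 * s + 1 by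
    omega), Finset.prod_const, Finset.card_univ, Fintype.card_fin]
  push_cast
  ring

theorem mem_bx {d : ℕ} (p x : Site d) (s : ℕ) :
    x ∈ Pool.Agent.Loc.box p s ↔ ∀ i, p i - s ≤ x i ∧ x i ≤ p i + s := by
  unfold Pool.Agent.Loc.box
  rw [Finset.mem_Icc, Pi.le_def, Pi.le_def]
  exact ⟨fun h i => ⟨h.1 i, h.2 i⟩, fun h => ⟨fun i => (h i).1, fun i => (h i).2⟩⟩

theorem bx_mono {d : ℕ} (p : Site d) {r s : ℕ} (h : r ≤ s) :
    Pool.Agent.Loc.box p r ⊆ Pool.Agent.Loc.box p s := by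
  intro x hx
  rw [mem_bx] at hx ⊢
  intro i
  have h1 := hx i
  have h2 : (r : ℤ) ≤ s := by exact_mod_cast h
  exact ⟨by linarith [h1.1], by linarith [h1.2]⟩

theorem ls_mono {d : ℕ} {ω h : Site d → ℝ} {ε k : ℝ} {p : Site d} {r s : ℕ} (hrs : r ≤ s)
    (hL : LS ω h ε k p s) : LS ω h ε k p r :=
  ⟨fun x hx => hL.1 x (bx_mono p (by omega) hx), fun x hx => hL.2 x (bx_mono p hrs hx)⟩

theorem av_zero {d : ℕ} (h : Site d → ℝ) (p : Site d) : av h p 0 = h p := by
  unfold av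
  have h1 : Pool.Agent.Loc.box p 0 = {p} := by
    ext x
    rw [mem_bx, Finset.mem_singleton]
    constructor
    · intro hx
      funext i
      have := hx i
      simp at this
      omega
    · rintro rfl i
      simp
  rw [h1, Finset.sum_singleton]
  simp

theorem lcp (lci : LciStmt) (pcr : PcrStmt) : LcpStmt := by
  intro d hd
  obtain ⟨K, hK⟩ : ∃ K : ℝ, K = 90 * (d : ℝ) ^ 2 * 6 ^ d := ⟨_, rfl⟩
  have hd1 : (1 : ℝ) ≤ d := by exact_mod_cast hd
  have hK1 : 1 ≤ K := by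
    rw [hK]
    have h1 : (1 : ℝ) ≤ (d : ℝ) ^ 2 := one_le_pow₀ hd1
    have h2 : (1 : ℝ) ≤ 6 ^ d := one_le_pow₀ (by norm_num)
    nlinarith
  obtain ⟨C, hC⟩ : ∃ C : ℝ, C = Real.sqrt K := ⟨_, rfl⟩
  have hC1 : 1 ≤ C := by rw [hC]; exact Real.one_le_sqrt.2 hK1
  have hCK : C ^ 2 = K := by rw [hC]; exact Real.sq_sqrt (by linarith)
  refine ⟨2 * C, by linarith, ?_⟩
  intro ω h ε k p s hε hε1 hk hs hL
  have hsk := Real.sqrt_nonneg k
  have hsk2 : Real.sqrt k ^ 2 = k := Real.sq_sqrt hk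
  -- one step
  have step : ∀ r r' : ℕ, 1 ≤ r → r ≤ s → 2 * r' ≤ r → r ≤ 2 * r' + 1 →
      |av h p r' - av h p r| ≤ C * (1 + Real.sqrt k * r) := by
    intro r r' hr hrs h1 h2
    have hr0 : (1 : ℝ) ≤ r := by exact_mod_cast hr
    have hLr : LS ω h ε k p (2 * r) := ls_mono (by omega) hL
    have e1 := lci d ω h ε k p r hd hε hε1 hk hr hLr
    have e2 := pcr d h p r hd
    obtain ⟨m, hm⟩ : ∃ m, m = av h p r := ⟨_, rfl⟩
    rw [← hm] at e2 ⊢
    obtain ⟨N, hN⟩ : ∃ N : ℝ, N = (2 * (r' : ℝ) + 1) ^ d := ⟨_, rfl⟩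
    have hN1 : 1 ≤ N := by
      rw [hN]
      exact one_le_pow₀ (by have : (0 : ℝ) ≤ r' := Nat.cast_nonneg _; linarith)
    have hN0 : 0 < N := by linarith
    have hcard : ((Pool.Agent.Loc.box p r').card : ℝ) = N := by rw [cardb, hN]
    have e3 : av h p r' - m = (∑ x ∈ Pool.Agent.Loc.box p r', (h x - m)) / N := by
      unfold av
      rw [Finset.sum_sub_distrib, Finset.sum_const, nsmul_eq_mul, hcard, ← hN]
      field_simp
    have e4 : (∑ x ∈ Pool.Agent.Loc.box p r', (h x - m)) ^ 2 ≤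
        N * ∑ x ∈ Pool.Agent.Loc.box p r', (h x - m) ^ 2 := by
      have := sq_sum_le_card_mul_sum_sq (s := Pool.Agent.Loc.box p r') (f := fun x => h x - m)
      rw [hcard] at this
      exact this
    have e5 : ∑ x ∈ Pool.Agent.Loc.box p r', (h x - m) ^ 2 ≤
        ∑ x ∈ Pool.Agent.Loc.box p r, (h x - m) ^ 2 :=
      Finset.sum_le_sum_of_subset_of_nonneg (bx_mono p (by omega)) fun x _ _ => sq_nonneg _
    have e6 : (av h p r' - m) ^ 2 * N ≤ ∑ x ∈ Pool.Agent.Loc.box p r, (h x - m) ^ 2 := by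
      rw [e3, div_pow, div_mul_eq_mul_div, div_le_iff₀ (by positivity)]
      calc (∑ x ∈ Pool.Agent.Loc.box p r', (h x - m)) ^ 2 * N
          ≤ (N * ∑ x ∈ Pool.Agent.Loc.box p r', (h x - m) ^ 2) * N :=
            mul_le_mul_of_nonneg_right e4 hN0.le
        _ ≤ (N * ∑ x ∈ Pool.Agent.Loc.box p r, (h x - m) ^ 2) * N :=
            mul_le_mul_of_nonneg_right (mul_le_mul_of_nonneg_left e5 hN0.le) hN0.le
        _ = (∑ x ∈ Pool.Agent.Loc.box p r, (h x - m) ^ 2) * N ^ 2 := by ring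
    have e7 : (2 * (r : ℝ) + 1) ^ d ≤ 3 ^ d * N := by
      rw [hN, ← mul_pow]
      refine pow_le_pow_left₀ (by positivity) ?_ d
      have : (r : ℝ) ≤ 2 * r' + 1 := by exact_mod_cast h2
      have h0 : (0 : ℝ) ≤ r' := Nat.cast_nonneg _
      linarith
    have e8 : (2 * (r : ℝ) + 1) ^ 2 * (1 / (r : ℝ) ^ 2 + k) ≤ 9 * (1 + k * r ^ 2) := by
      have h3 : (2 * (r : ℝ) + 1) ^ 2 ≤ 9 * r ^ 2 := by nlinarith
      have h4 : 0 ≤ 1 / (r : ℝ) ^ 2 + k := by positivity
      calc (2 * (r : ℝ) + 1) ^ 2 * (1 / (r : ℝ) ^ 2 + k) ≤ 9 * r ^ 2 * (1 / (r : ℝ) ^ 2 + k) :=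
            mul_le_mul_of_nonneg_right h3 h4
        _ = 9 * (1 + k * r ^ 2) := by
            have : (r : ℝ) ≠ 0 := by positivity
            field_simp
    have e9 : (av h p r' - m) ^ 2 * N ≤ K * (1 + k * r ^ 2) * N := by
      calc (av h p r' - m) ^ 2 * N ≤ d * (2 * (r : ℝ) + 1) ^ 2 * eg h p r := e6.trans e2
        _ ≤ d * (2 * (r : ℝ) + 1) ^ 2 *
            (10 * d * 2 ^ d * (1 / (r : ℝ) ^ 2 + k) * (2 * (r : ℝ) + 1) ^ d) :=
            mul_le_mul_of_nonneg_left e1 (by positivity)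
        _ = 10 * d ^ 2 * 2 ^ d * ((2 * (r : ℝ) + 1) ^ 2 * (1 / (r : ℝ) ^ 2 + k)) *
            (2 * (r : ℝ) + 1) ^ d := by ring
        _ ≤ 10 * d ^ 2 * 2 ^ d * (9 * (1 + k * r ^ 2)) * (3 ^ d * N) := by
            refine mul_le_mul (mul_le_mul_of_nonneg_left e8 (by positivity)) e7 (by positivity)
              (by positivity)
        _ = K * (1 + k * r ^ 2) * N := by
            have h6 : (6 : ℝ) ^ d = 2 ^ d * 3 ^ d := by rw [← mul_pow]; norm_num
            rw [hK, h6]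
            ring
    have e10 : (av h p r' - m) ^ 2 ≤ K * (1 + k * r ^ 2) := le_of_mul_le_mul_right e9 hN0
    refine abs_le_of_sq_le_sq ?_ (by positivity)
    calc (av h p r' - m) ^ 2 ≤ K * (1 + k * r ^ 2) := e10
      _ ≤ (C * (1 + Real.sqrt k * r)) ^ 2 := by
        rw [mul_pow, hCK]
        refine mul_le_mul_of_nonneg_left ?_ (by linarith)
        have : (Real.sqrt k * r) ^ 2 = k * r ^ 2 := by rw [mul_pow, hsk2]
        have h0 : 0 ≤ Real.sqrt k * r := by positivity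
        nlinarith
  -- induction
  have main : ∀ r : ℕ, 1 ≤ r → r ≤ s →
      |h p - av h p r| ≤ C * (1 + 2 * Real.log r + 2 * (Real.sqrt k * r)) := by
    intro r
    induction r using Nat.strong_induction_on with
    | _ r ih =>
      intro hr hrs
      have hst := step r (r / 2) hr hrs (by omega) (by omega)
      have hr0 : (1 : ℝ) ≤ r := by exact_mod_cast hr
      have hr2 : (((r / 2 : ℕ) : ℝ)) ≤ r / 2 := Nat.cast_div_le
      rcases Nat.eq_zero_or_pos (r / 2) with h0 | h0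
      · rw [h0, av_zero] at hst
        refine hst.trans (mul_le_mul_of_nonneg_left ?_ (by linarith))
        have h1 : 0 ≤ Real.log r := Real.log_nonneg hr0
        have h2 : 0 ≤ Real.sqrt k * r := by positivity
        linarith
      · have h1 := ih (r / 2) (by omega) h0 (by omega)
        have h2 : |h p - av h p r| ≤ |h p - av h p (r / 2)| + |av h p (r / 2) - av h p r| := by
          have := abs_add_le (h p - av h p (r / 2)) (av h p (r / 2) - av h p r)
          rwa [sub_add_sub_cancel] at this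
        have h3 : Real.log ((r / 2 : ℕ) : ℝ) ≤ Real.log r - Real.log 2 := by
          rw [← Real.log_div (by positivity) (by norm_num)]
          exact Real.log_le_log (by exact_mod_cast h0) hr2
        have h4 := Real.log_two_gt_d9
        have h5 : Real.sqrt k * ((r / 2 : ℕ) : ℝ) ≤ Real.sqrt k * r / 2 := by
          rw [mul_div_assoc]
          exact mul_le_mul_of_nonneg_left hr2 hsk
        calc |h p - av h p r| ≤ C * (1 + 2 * Real.log ((r / 2 : ℕ) : ℝ) +
              2 * (Real.sqrt k * ((r / 2 : ℕ) : ℝ))) + C * (1 + Real.sqrt k * r) := by linarith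
          _ = C * (1 + 2 * Real.log ((r / 2 : ℕ) : ℝ) +
              2 * (Real.sqrt k * ((r / 2 : ℕ) : ℝ)) + (1 + Real.sqrt k * r)) := by ring
          _ ≤ C * (1 + 2 * Real.log r + 2 * (Real.sqrt k * r)) := by
            refine mul_le_mul_of_nonneg_left ?_ (by linarith)
            linarith
  refine (main s hs le_rfl).trans ?_
  have hs0 : (1 : ℝ) ≤ s := by exact_mod_cast hs
  have h1 : 0 ≤ Real.log s := Real.log_nonneg hs0
  have h2 : 0 ≤ Real.sqrt k * s := by positivity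
  nlinarith

end Pool.Agent.LE.H65Z
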